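import Pool.Agent.Lib.MP_d315f4_nt.Main

/-!
An upper bound of the right order for the number of roots of an irreducible cubic modulo
primes that lie in a short interval.
-/

set_option autoImplicit false

open Finset Polynomial

namespace Pool.Agent.Results.MP_d315f4_nt.CubicUpperBound

open Pool.Agent.Lib.MP_d315f4_nt in
theorem result (f : ℤ[X]) (hm : f.Monic) (hirr : Irreducible f) (hd : f.natDegree = 3) :
    ∃ η : ℝ, 0 < η ∧ ∃ C : ℝ, ∀ x : ℝ, 2 ≤ x → ∀ a b : ℝ, x ^ (-η) ≤ b - a →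
      (∑ p ∈ (range (⌊x⌋₊ + 1)).filter Nat.Prime, (((range p).filter fun ν : ℕ =>
        (p : ℤ) ∣ f.eval (ν : ℤ) ∧ a ≤ (ν : ℝ) / p ∧ (ν : ℝ) / p ≤ b).card : ℝ)) ≤
      C * (b - a) * Nat.primeCounting ⌊x⌋₊ := by
  have h3 : f.coeff 3 = 1 := hd ▸ hm.coeff_natDegree
  have hev : ∀ {R : Type} [CommRing R] (t : R),
      aeval t f = fv (f.coeff 2 : R) (f.coeff 1) (f.coeff 0) t := by
    intro R _ t
    rw [aeval_eq_sum_range, hd]
    simp only [sum_range_succ, range_zero, sum_empty, h3, fv, zsmul_eq_mul]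
    push_cast
    ring
  have hI : Irr (f.coeff 2) (f.coeff 1) (f.coeff 0) := by
    intro u w hw h0
    have h1 := (hm.irreducible_iff_irreducible_map_fraction_map (K := ℚ)).1 hirr
    have h2 : (f.map (algebraMap ℤ ℚ)).IsRoot (u / w) := by
      have hw' : (w : ℚ) ≠ 0 := by exact_mod_cast hw
      have h4 : ((hom (f.coeff 2) (f.coeff 1) (f.coeff 0) u w : ℤ) : ℚ) = 0 := by exact_mod_cast h0
      rw [IsRoot, eval_map_algebraMap, hev, fv]
      simp only [hom] at h4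
      push_cast at h4
      field_simp
      linear_combination h4
    have h5 := natDegree_eq_of_degree_eq_some (degree_eq_one_of_irreducible_of_root h1 h2)
    rw [hm.natDegree_map, hd] at h5
    exact absurd h5 (by norm_num)
  obtain ⟨η, hη, C, h⟩ := main_bound hI
  refine ⟨η, hη, C, fun x hx a b hab => ?_⟩
  refine le_trans (le_of_eq ?_) (h x hx a b hab
    ((((range (⌊x⌋₊ + 1)).filter Nat.Prime).sigma fun p => (range p).filter fun ν : ℕ =>
      (p : ℤ) ∣ f.eval (ν : ℤ) ∧ a ≤ (ν : ℝ) / p ∧ (ν : ℝ) / p ≤ b).map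
        (Equiv.sigmaEquivProd ℕ ℕ).toEmbedding) ?_ ?_)
  · rw [card_map, card_sigma, Nat.cast_sum]
  · intro u hu
    obtain ⟨v, hv, rfl⟩ := mem_map.1 hu
    obtain ⟨b1, b2⟩ := mem_sigma.1 hv
    refine ⟨(mem_filter.1 b1).2, mem_range.1 (mem_filter.1 b2).1, ?_⟩
    have := hev (v.2 : ℤ)
    rw [coe_aeval_eq_eval] at this
    exact this ▸ (mem_filter.1 b2).2.1
  · intro u hu
    obtain ⟨v, hv, rfl⟩ := mem_map.1 hu
    obtain ⟨b1, b2⟩ := mem_sigma.1 hv
    exact ⟨(Nat.le_floor_iff (by linarith)).1 (Nat.lt_succ_iff.1 (mem_range.1 (mem_filter.1 b1).1)),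
      (mem_filter.1 b2).2.2⟩

end Pool.Agent.Results.MP_d315f4_nt.CubicUpperBound
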