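import Pool.Agent.Lib.MP_d315f4_nt.W.Omega

/-!
Weyl sums of the roots of an irreducible cubic congruence, summed over moduli with a fixed
number of prime factors.
-/

set_option autoImplicit false

open Finset Polynomial

namespace Pool.Agent.Results.MP_d315f4_nt.KPrimeModuli

open Pool.Agent.Lib.MP_d315f4_nt in
theorem result (f : ℤ[X]) (hm : f.Monic) (hirr : Irreducible f) (hd : f.natDegree = 3) :
    ∀ k : ℕ, 2 ≤ k → ∀ h : ℤ, h ≠ 0 → Filter.Tendsto (fun x : ℕ =>
      (∑ n ∈ (Icc 1 x).filter (fun n : ℕ => ArithmeticFunction.cardFactors n = k),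
        ∑ ν ∈ (range n).filter (fun ν : ℕ => (n : ℤ) ∣ f.eval (ν : ℤ)),
          Complex.exp (2 * (Real.pi : ℂ) * Complex.I * (h : ℂ) * (ν : ℂ) / (n : ℂ))) /
      (((Icc 1 x).filter fun n : ℕ => ArithmeticFunction.cardFactors n = k).card : ℂ))
      Filter.atTop (nhds 0) := by
  have h3 : f.coeff 3 = 1 := hd ▸ hm.coeff_natDegree
  have hev : ∀ {R : Type} [CommRing R] (t : R),
      aeval t f = fv (f.coeff 2 : R) (f.coeff 1) (f.coeff 0) t := by
    intro R _ t
    rw [aeval_eq_sum_range, hd]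
    simp only [sum_range_succ, range_zero, sum_empty, h3, fv, zsmul_eq_mul]
    push_cast
    ring
  have hI : Irr (f.coeff 2) (f.coeff 1) (f.coeff 0) := by
    intro u w hw h0
    have h1 := (hm.irreducible_iff_irreducible_map_fraction_map (K := ℚ)).1 hirr
    have h2 : (f.map (algebraMap ℤ ℚ)).IsRoot (u / w) := by
      have hw' : (w : ℚ) ≠ 0 := by exact_mod_cast hw
      have h4 : ((hom (f.coeff 2) (f.coeff 1) (f.coeff 0) u w : ℤ) : ℚ) = 0 := by exact_mod_cast h0
      rw [IsRoot, eval_map_algebraMap, hev, fv]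
      simp only [hom] at h4
      push_cast at h4
      field_simp
      linear_combination h4
    have h5 := natDegree_eq_of_degree_eq_some (degree_eq_one_of_irreducible_of_root h1 h2)
    rw [hm.natDegree_map, hd] at h5
    exact absurd h5 (by norm_num)
  have hW : ∀ (h : ℤ) (n : ℕ), ∑ ν ∈ (range n).filter (fun ν : ℕ => (n : ℤ) ∣ f.eval (ν : ℤ)),
      Complex.exp (2 * (Real.pi : ℂ) * Complex.I * (h : ℂ) * (ν : ℂ) / (n : ℂ)) =
      W.Wn (f.coeff 2) (f.coeff 1) (f.coeff 0) h n := fun h n => by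
    rw [W.Wn, sum_filter]
    refine sum_congr rfl fun ν _ => if_congr ?_ ?_ rfl
    · have := hev (ν : ℤ)
      rw [coe_aeval_eq_eval] at this
      exact this ▸ Iff.rfl
    · unfold ee
      congr 1
      push_cast
      ring
  simp only [hW]
  intro k hk h h0
  obtain ⟨j, rfl⟩ : ∃ j, k = j + 1 := ⟨k - 1, by omega⟩
  exact W.omega_lim hI h0 (by omega)

end Pool.Agent.Results.MP_d315f4_nt.KPrimeModuli
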