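import Pool.Agent.Lib.MP_d315f4_nt.W.Brun

/-!
Weyl sums of the roots of an irreducible cubic congruence, summed over moduli without small
prime factors.
-/

set_option autoImplicit false

open Finset Polynomial

namespace Pool.Agent.Results.MP_d315f4_nt.RoughModuli

open Pool.Agent.Lib.MP_d315f4_nt in
theorem result (f : ℤ[X]) (hm : f.Monic) (hirr : Irreducible f) (hd : f.natDegree = 3) :
    ∃ η : ℝ, 0 < η ∧ ∃ c : ℝ, 0 < c ∧ ∃ C : ℝ, ∀ x : ℕ, 1 ≤ x → ∀ h : ℤ, h ≠ 0 →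
      |(h : ℝ)| ≤ (x : ℝ) ^ η → ∀ z : ℕ, (z : ℝ) ≤ (x : ℝ) ^ η →
        ‖∑ n ∈ (Icc 1 x).filter (fun n : ℕ => ∀ p ∈ n.primeFactors, z < p),
          ∑ ν ∈ (range n).filter (fun ν : ℕ => (n : ℤ) ∣ f.eval (ν : ℤ)),
            Complex.exp (2 * (Real.pi : ℂ) * Complex.I * (h : ℂ) * (ν : ℂ) / (n : ℂ))‖ ≤
          C * x * Real.exp (-(c * Real.sqrt (Real.log x))) := by
  have h3 : f.coeff 3 = 1 := hd ▸ hm.coeff_natDegree
  have hev : ∀ {R : Type} [CommRing R] (t : R),
      aeval t f = fv (f.coeff 2 : R) (f.coeff 1) (f.coeff 0) t := by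
    intro R _ t
    rw [aeval_eq_sum_range, hd]
    simp only [sum_range_succ, range_zero, sum_empty, h3, fv, zsmul_eq_mul]
    push_cast
    ring
  have hI : Irr (f.coeff 2) (f.coeff 1) (f.coeff 0) := by
    intro u w hw h0
    have h1 := (hm.irreducible_iff_irreducible_map_fraction_map (K := ℚ)).1 hirr
    have h2 : (f.map (algebraMap ℤ ℚ)).IsRoot (u / w) := by
      have hw' : (w : ℚ) ≠ 0 := by exact_mod_cast hw
      have h4 : ((hom (f.coeff 2) (f.coeff 1) (f.coeff 0) u w : ℤ) : ℚ) = 0 := by exact_mod_cast h0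
      rw [IsRoot, eval_map_algebraMap, hev, fv]
      simp only [hom] at h4
      push_cast at h4
      field_simp
      linear_combination h4
    have h5 := natDegree_eq_of_degree_eq_some (degree_eq_one_of_irreducible_of_root h1 h2)
    rw [hm.natDegree_map, hd] at h5
    exact absurd h5 (by norm_num)
  have hW : ∀ (h : ℤ) (n : ℕ), ∑ ν ∈ (range n).filter (fun ν : ℕ => (n : ℤ) ∣ f.eval (ν : ℤ)),
      Complex.exp (2 * (Real.pi : ℂ) * Complex.I * (h : ℂ) * (ν : ℂ) / (n : ℂ)) =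
      W.Wn (f.coeff 2) (f.coeff 1) (f.coeff 0) h n := fun h n => by
    rw [W.Wn, sum_filter]
    refine sum_congr rfl fun ν _ => if_congr ?_ ?_ rfl
    · have := hev (ν : ℤ)
      rw [coe_aeval_eq_eval] at this
      exact this ▸ Iff.rfl
    · unfold ee
      congr 1
      push_cast
      ring
  simp only [hW]
  obtain ⟨η, c, C, hη, hc, H⟩ := W.rough hI
  refine ⟨η, hη, c, hc, C, fun x hx h h0 hh z hz => ?_⟩
  refine le_trans (le_of_eq (congrArg _ (sum_congr ?_ fun _ _ => rfl))) (H x hx h h0 hh z hz)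
  ext n
  simp only [mem_filter, mem_Icc, mem_Ioc, Nat.mem_primeFactors, Nat.one_le_iff_ne_zero,
    Nat.pos_iff_ne_zero]
  exact and_congr_right fun h1 => ⟨fun H p p1 p2 => H p ⟨p1, p2, h1.1⟩,
    fun H p hp => H p hp.1 hp.2.1⟩

end Pool.Agent.Results.MP_d315f4_nt.RoughModuli
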