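import Pool.Agent.Lib.MP_d315f4_nt.W.Weyl

/-!
A power saving for the Weyl sums of the roots of an irreducible cubic congruence, summed over
all moduli that are divisible by a given small integer.
-/

set_option autoImplicit false

open Finset Polynomial

namespace Pool.Agent.Results.MP_d315f4_nt.WeylPowerSaving

open Pool.Agent.Lib.MP_d315f4_nt in
theorem result (f : ℤ[X]) (hm : f.Monic) (hirr : Irreducible f) (hd : f.natDegree = 3) :
    ∃ η : ℝ, 0 < η ∧ ∃ C : ℝ, ∀ x : ℝ, 1 ≤ x → ∀ h : ℤ, h ≠ 0 → |(h : ℝ)| ≤ x ^ η →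
      ∀ d : ℕ, 0 < d → (d : ℝ) ≤ x ^ η →
        ‖∑ n ∈ (Icc 1 ⌊x⌋₊).filter (fun n : ℕ => d ∣ n),
          ∑ ν ∈ (range n).filter (fun ν : ℕ => (n : ℤ) ∣ f.eval (ν : ℤ)),
            Complex.exp (2 * (Real.pi : ℂ) * Complex.I * (h : ℂ) * (ν : ℂ) / (n : ℂ))‖ ≤
          C * x ^ (1 - η) / d := by
  have h3 : f.coeff 3 = 1 := hd ▸ hm.coeff_natDegree
  have hev : ∀ {R : Type} [CommRing R] (t : R),
      aeval t f = fv (f.coeff 2 : R) (f.coeff 1) (f.coeff 0) t := by
    intro R _ t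
    rw [aeval_eq_sum_range, hd]
    simp only [sum_range_succ, range_zero, sum_empty, h3, fv, zsmul_eq_mul]
    push_cast
    ring
  have hI : Irr (f.coeff 2) (f.coeff 1) (f.coeff 0) := by
    intro u w hw h0
    have h1 := (hm.irreducible_iff_irreducible_map_fraction_map (K := ℚ)).1 hirr
    have h2 : (f.map (algebraMap ℤ ℚ)).IsRoot (u / w) := by
      have hw' : (w : ℚ) ≠ 0 := by exact_mod_cast hw
      have h4 : ((hom (f.coeff 2) (f.coeff 1) (f.coeff 0) u w : ℤ) : ℚ) = 0 := by exact_mod_cast h0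
      rw [IsRoot, eval_map_algebraMap, hev, fv]
      simp only [hom] at h4
      push_cast at h4
      field_simp
      linear_combination h4
    have h5 := natDegree_eq_of_degree_eq_some (degree_eq_one_of_irreducible_of_root h1 h2)
    rw [hm.natDegree_map, hd] at h5
    exact absurd h5 (by norm_num)
  obtain ⟨η, hη, C, H⟩ := W.weyl hI
  refine ⟨η / 2, half_pos hη, |C|, fun x hx h h0 hh d hd0 hdx => ?_⟩
  have hx0 : 0 < x := by linarith
  have h2 : x ^ (η / 2) ≤ x ^ η := Real.rpow_le_rpow_of_exponent_le hx (by linarith)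
  have h4 : C * x ^ (1 - η) ≤ |C| * x ^ (1 - η / 2) / d := by
    rw [le_div_iff₀ (by exact_mod_cast hd0), show 1 - η / 2 = 1 - η + η / 2 by ring,
      Real.rpow_add hx0, ← mul_assoc]
    exact mul_le_mul (mul_le_mul_of_nonneg_right (le_abs_self C) (by positivity)) hdx
      (by positivity) (by positivity)
  refine le_trans (le_of_eq (congrArg _ ?_))
    ((H x hx h h0 (hh.trans h2) d hd0 (hdx.trans h2)).trans h4)
  rw [sum_filter, show Icc 1 ⌊x⌋₊ = Ioc 0 ⌊x⌋₊ from rfl]
  refine sum_congr rfl fun n _ => if_congr Iff.rfl ?_ rfl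
  rw [W.Wn, sum_filter]
  refine sum_congr rfl fun ν _ => if_congr ?_ ?_ rfl
  · have := hev (ν : ℤ)
    rw [coe_aeval_eq_eval] at this
    exact this ▸ Iff.rfl
  · unfold ee
    congr 1
    push_cast
    ring

end Pool.Agent.Results.MP_d315f4_nt.WeylPowerSaving
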